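import Pool.Agent.H55.QR.Targets

set_option autoImplicit false

namespace Pool.Agent.H64.QR

open Matrix Finset
open H43.PS Pool.Agent.H55.QR
open Pool.Agent.H1.LP (Clause viol Loc Sys supp ip kk)

/-- `PSB` is monotone in the order and the share -/
lemma psb_mono {Θ : Type} [Fintype Θ] [DecidableEq Θ] [AddCommGroup Θ] {N q h : ℕ}
    {r r' δ₀ s s' : ℝ} (hr : r' ≤ r) (hs : s ≤ s') (H : PSB Θ N q h r δ₀ s) :
    PSB Θ N q h r' δ₀ s' := by
  intro ι _ _ A P S D v m δ h1 h2 h3 h4 h5 h6 h7 h8 h9 h10 h11 h12 h13 h14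
  exact (H ι A P S D v m δ h1 h2 h3 h4 h5 h6 h7 h8 h9 h10 h11 h12 (h13.trans hr) h14).trans hs

lemma exp_le {E B : ℕ} (h : 16 * E ≤ B) : 4 * E * B ≤ 2 ^ B := by
  have h1 : B / 2 < 2 ^ (B / 2) := Nat.lt_two_pow_self
  have h2 : (2 ^ (B / 2)) * (2 ^ (B / 2)) ≤ 2 ^ B := by
    rw [← pow_add]
    exact Nat.pow_le_pow_right (by norm_num) (by omega)
  have h3 : B ≤ 2 * (B / 2) + 1 := by omega
  have h4 : 8 * E ≤ B / 2 := by omega
  set c := B / 2 with hc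
  have h5 : (c + 1) * (c + 1) ≤ 2 ^ c * 2 ^ c := Nat.mul_le_mul h1 h1
  calc 4 * E * B ≤ 4 * E * (2 * (c + 1)) := Nat.mul_le_mul_left _ (by omega)
    _ = 8 * E * (c + 1) := by ring
    _ ≤ (c + 1) * (c + 1) := Nat.mul_le_mul_right _ (by omega)
    _ ≤ _ := h5.trans h2

/-- FINP -/
theorem pf_FINP (hC : S_PCORE) (hX : S_EXPA) : S_FINP := by
  intro C ε hε
  set e : ℝ := min ε (1 / 4) / 4 with he
  have he0 : 0 < e := by
    have : 0 < min ε (1 / 4) := lt_min hε (by norm_num)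
    positivity
  have he1 : 4 * e ≤ ε := by
    have := min_le_left ε (1 / 4)
    rw [he]; linarith
  have he2 : e ≤ 1 / 16 := by
    have := min_le_right ε (1 / 4)
    rw [he]; linarith
  set C1 : ℝ := 2 * max C 0 + 1 with hC1
  have hC10 : 0 ≤ C1 := by
    have := le_max_right C 0
    rw [hC1]; linarith
  obtain ⟨E0, hE0⟩ := exists_nat_ge (16 / e)
  set E : ℕ := max 16 E0 with hE
  have hE16 : 16 ≤ E := le_max_left _ _
  have hEe : 16 / e ≤ (E : ℝ) := hE0.trans (by exact_mod_cast le_max_right 16 E0)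
  have hEpos : (0 : ℝ) < E := by
    have : (16 : ℝ) ≤ E := by exact_mod_cast hE16
    linarith
  have h8E : 8 / (E : ℝ) ≤ e / 2 := by
    rw [div_le_iff₀ hEpos]
    rw [div_le_iff₀ he0] at hEe
    nlinarith
  have h1E : 1 / (E : ℝ) ≤ ε := by
    have : 1 / (E : ℝ) ≤ 8 / E := by
      apply div_le_div_of_nonneg_right _ hEpos.le
      norm_num
    linarith
  have key : ∀ Q : ℕ, ∃ q₀ : ℕ, ∀ _ : Fact Q.Prime, ∀ q : ℕ, q₀ ≤ q → ∀ (N h : ℕ),
      (1 - e / 2) * N ≤ 2 * (h + 1) →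
      PSB (ZMod Q) N q h ((((Q : ℝ) * q) ^ N) ^ (1 / 2 - e)) (((2 : ℝ) ^ N)⁻¹)
        ((((Q : ℝ) * q) ^ N) ^ (-C1)) := by
    intro Q
    by_cases hQ : Q.Prime
    · haveI : Fact Q.Prime := ⟨hQ⟩
      have hc : Fintype.card (ZMod Q) = Q := ZMod.card Q
      obtain ⟨q₀, h0⟩ := hX (ZMod Q) e C1 he0 (by linarith) hC10 (by rw [hc]; exact hQ.one_lt)
      refine ⟨q₀, fun _ q hq N h hN => ?_⟩
      have := h0 q hq N h hN
      rw [hc] at this
      exact this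
    · exact ⟨0, fun h => absurd h.out hQ⟩
  choose q0 hq0 using key
  set q1 : ℕ := (range (2 ^ (4 * E + 1) + 1)).sup q0 with hq1
  obtain ⟨l0, hl0⟩ := exists_nat_ge (1 / e)
  set l : ℕ := q1 + l0 with hl
  set b : ℕ := 4 * E + 1 + l with hb
  have hb4 : 4 ≤ b := by omega
  have hbe : 1 / e ≤ (b : ℝ) := hl0.trans (by exact_mod_cast (by omega : l0 ≤ b))
  have hbpos : (0 : ℝ) < b := by
    have : (4 : ℝ) ≤ b := by exact_mod_cast hb4
    linarith
  have hb1 : 1 ≤ e * b := by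
    rw [div_le_iff₀ he0] at hbe
    linarith
  refine ⟨b * kk E, 4 * E * 2 ^ (b * kk E), 1 / (2 * b), by positivity, ?_⟩
  obtain ⟨n1, hn1⟩ := exists_nat_ge ((b : ℝ) / (5 * e))
  refine ⟨b * (2 * kk E + 16 * E + 4) + n1 + 4 * b, fun n hn => ?_⟩
  set B : ℕ := n / b with hB
  have hb0 : 0 < b := by omega
  have hBn : B * b ≤ n := Nat.div_mul_le_self n b
  have hnB : n < (B + 1) * b := by
    have := Nat.lt_div_mul_add (a := n) hb0
    calc n < n / b * b + b := this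
      _ = (B + 1) * b := by rw [hB]; ring
  have hBbig : 2 * kk E + 16 * E + 4 ≤ B := by
    rw [hB, Nat.le_div_iff_mul_le hb0]
    calc (2 * kk E + 16 * E + 4) * b = b * (2 * kk E + 16 * E + 4) := by ring
      _ ≤ n := by omega
  have hB1 : 2 * kk E ≤ B := by omega
  have hB2 : 4 * E * B ≤ 2 ^ B := exp_le (by omega)
  -- real estimates
  have hnR : (n : ℝ) < ((B : ℝ) + 1) * b := by exact_mod_cast hnB
  have hn4 : 4 * (b : ℝ) ≤ n := by
    have : 4 * b ≤ n := by omega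
    exact_mod_cast this
  have hn5 : (b : ℝ) / (5 * e) ≤ n := hn1.trans (by exact_mod_cast (by omega : n1 ≤ n))
  have hn5' : (b : ℝ) ≤ 5 * e * n := by
    rw [div_le_iff₀ (by positivity)] at hn5
    linarith
  have hn0 : (0 : ℝ) ≤ n := Nat.cast_nonneg n
  have hBR : (0 : ℝ) ≤ B := Nat.cast_nonneg B
  -- (b - 1) B ≥ (1 - e) (n - b)
  have hbB : (1 - e) * ((n : ℝ) - b) ≤ ((b : ℝ) - 1) * B := by
    have h1 : (n : ℝ) - b ≤ B * b := by linarith
    have h2 : (B : ℝ) ≤ e * (B * b) := by nlinarith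
    have h3 : (1 - e) * ((n : ℝ) - b) ≤ (1 - e) * (B * b) :=
      mul_le_mul_of_nonneg_left h1 (by linarith)
    nlinarith
  -- the base
  have hbase : ∀ Q : ℕ, 2 ^ (4 * E) < Q →
      (2 : ℝ) ^ (((b : ℝ) - 1) * B) ≤ ((Q : ℝ) * (2 ^ l : ℕ)) ^ B := by
    intro Q hQ
    have h1 : (2 : ℝ) ^ (4 * E + l) ≤ (Q : ℝ) * (2 ^ l : ℕ) := by
      rw [pow_add]
      push_cast
      refine mul_le_mul_of_nonneg_right ?_ (by positivity)
      exact_mod_cast hQ.le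
    have h2 : ((b : ℝ) - 1) * B = (((4 * E + l) * B : ℕ) : ℝ) := by
      rw [hb]; push_cast; ring
    rw [h2, Real.rpow_natCast, pow_mul]
    exact pow_le_pow_left₀ (by positivity) h1 B
  have hbase1 : ∀ Q : ℕ, 2 ^ (4 * E) < Q → (1 : ℝ) ≤ ((Q : ℝ) * (2 ^ l : ℕ)) ^ B := by
    intro Q hQ
    refine le_trans ?_ (hbase Q hQ)
    refine Real.one_le_rpow (by norm_num) (mul_nonneg ?_ hBR)
    have : (4 : ℝ) ≤ b := by exact_mod_cast hb4
    linarith
  -- the order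
  have hr : ∀ Q : ℕ, 2 ^ (4 * E) < Q →
      (2 : ℝ) ^ ((1 / 2 - ε) * n) ≤ (((Q : ℝ) * (2 ^ l : ℕ)) ^ B) ^ (1 / 2 - e) := by
    intro Q hQ
    refine le_trans ?_ (Real.rpow_le_rpow (by positivity) (hbase Q hQ) (by linarith))
    rw [← Real.rpow_mul (by norm_num)]
    refine Real.rpow_le_rpow_of_exponent_le (by norm_num) ?_
    have h1 : (1 - e) * ((n : ℝ) - b) * (1 / 2 - e) ≤ ((b : ℝ) - 1) * B * (1 / 2 - e) :=
      mul_le_mul_of_nonneg_right hbB (by linarith)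
    refine le_trans ?_ h1
    have h2 : (1 / 2 - ε) * (n : ℝ) ≤ (1 / 2 - 4 * e) * n :=
      mul_le_mul_of_nonneg_right (by linarith) hn0
    refine h2.trans ?_
    have hnb : 0 ≤ (n : ℝ) - b := by linarith
    have h3 : (1 / 2 - 3 / 2 * e) * ((n : ℝ) - b) ≤ (1 - e) * ((n : ℝ) - b) * (1 / 2 - e) := by
      have : (1 / 2 - 3 / 2 * e) ≤ (1 - e) * (1 / 2 - e) := by nlinarith
      nlinarith
    refine le_trans ?_ h3
    nlinarith
  -- the share
  have hs : ∀ Q : ℕ, 2 ^ (4 * E) < Q →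
      (((Q : ℝ) * (2 ^ l : ℕ)) ^ B) ^ (-C1) ≤ (2 : ℝ) ^ (-(C * n)) := by
    intro Q hQ
    have hpos : (0 : ℝ) < (2 : ℝ) ^ (((b : ℝ) - 1) * B) := by positivity
    have h1 : (((Q : ℝ) * (2 ^ l : ℕ)) ^ B) ^ (-C1) ≤ ((2 : ℝ) ^ (((b : ℝ) - 1) * B)) ^ (-C1) :=
      Real.rpow_le_rpow_of_nonpos hpos (hbase Q hQ) (by linarith)
    refine h1.trans ?_
    rw [← Real.rpow_mul (by norm_num)]
    refine Real.rpow_le_rpow_of_exponent_le (by norm_num) ?_
    have h2 : (n : ℝ) / 2 ≤ ((b : ℝ) - 1) * B := by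
      refine le_trans ?_ hbB
      nlinarith
    have h3 : max C 0 * n ≤ ((b : ℝ) - 1) * B * C1 := by
      have hm : 0 ≤ max C 0 := le_max_right _ _
      have : (n : ℝ) / 2 * C1 ≤ ((b : ℝ) - 1) * B * C1 := mul_le_mul_of_nonneg_right h2 hC10
      have h4 : max C 0 * n ≤ (n : ℝ) / 2 * C1 := by rw [hC1]; nlinarith
      linarith
    have h5 : C * n ≤ max C 0 * n := mul_le_mul_of_nonneg_right (le_max_left _ _) hn0
    linarith
  -- degree
  have hdeg : (1 - e / 2) * (B : ℝ) ≤ 2 * ((((B - 8 * (B / E)) / 2 : ℕ) : ℝ) + 1) := by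
    have h1 : B - 8 * (B / E) ≤ 2 * ((B - 8 * (B / E)) / 2) + 1 := by omega
    have h2 : ((B - 8 * (B / E) : ℕ) : ℝ) ≤ 2 * (((B - 8 * (B / E)) / 2 : ℕ) : ℝ) + 1 := by
      exact_mod_cast h1
    have h3 : (B : ℝ) - 8 * ((B / E : ℕ) : ℝ) ≤ ((B - 8 * (B / E) : ℕ) : ℝ) := by
      have : B ≤ (B - 8 * (B / E)) + 8 * (B / E) := by omega
      have : (B : ℝ) ≤ ((B - 8 * (B / E) : ℕ) : ℝ) + 8 * ((B / E : ℕ) : ℝ) := by
        exact_mod_cast this
      linarith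
    have h4 : ((B / E : ℕ) : ℝ) ≤ (B : ℝ) / E := Nat.cast_div_le
    have h5 : 8 * ((B : ℝ) / E) ≤ e / 2 * B := by
      have : 8 * ((B : ℝ) / E) = 8 / E * B := by ring
      rw [this]
      exact mul_le_mul_of_nonneg_right h8E hBR
    linarith
  obtain ⟨Y, m, phi, hY, hphi, hmain⟩ := hC E l n B hE16 hB1 hBn hB2
    ((2 : ℝ) ^ ((1 / 2 - ε) * n)) (((2 : ℝ) ^ B)⁻¹) ((2 : ℝ) ^ (-(C * n)))
    (fun Q hQp hQ1 hQ2 => by
      have hmem : Q ∈ range (2 ^ (4 * E + 1) + 1) := by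
        rw [mem_range]; omega
      have hq : q0 Q ≤ 2 ^ l := by
        have h1 : q0 Q ≤ q1 := Finset.le_sup (f := q0) hmem
        have h2 : l < 2 ^ l := Nat.lt_two_pow_self
        omega
      exact psb_mono (hr Q hQ1) (hs Q hQ1) (hq0 Q hQp (2 ^ l) hq B _ hdeg))
  refine ⟨Y, m, phi, hY, fun a => ?_, ?_⟩
  · obtain ⟨h1, h2, h3, h4⟩ := hphi a
    refine ⟨h1, h2.trans ?_, h3, fun x => le_trans ?_ (h4 x)⟩
    · have hBle : B ≤ n := Nat.div_le_self n b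
      calc 4 * E * B * 2 ^ ((4 * E + 1 + l) * kk E) ≤ 4 * E * n * 2 ^ (b * kk E) := by
            rw [← hb]
            exact Nat.mul_le_mul_right _ (Nat.mul_le_mul_left _ hBle)
        _ = 4 * E * 2 ^ (b * kk E) * n := by ring
    · refine mul_le_mul_of_nonneg_right (by linarith) (by positivity)
  · intro ι _ _ L S A de hι hde hL hS htr
    refine hmain ι L S A de hι (lt_of_lt_of_le (by positivity) hde) (le_trans ?_ hde) hL hS htr
    rw [← Real.rpow_natCast, ← Real.rpow_neg (by norm_num)]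
    refine Real.rpow_le_rpow_of_exponent_le (by norm_num) ?_
    have h1 : 1 / (2 * (b : ℝ)) * n ≤ B := by
      rw [div_mul_eq_mul_div, div_le_iff₀ (by positivity)]
      nlinarith
    linarith

end Pool.Agent.H64.QR
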